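import Pool.Agent.W184.NV.Defs

set_option autoImplicit false

/-! Basic facts: the circle and the product measures. -/

namespace Pool.Agent.W184.NV

open MeasureTheory Filter Topology ProbabilityTheory

lemma norm_ze (θ : Ci) : ‖ze θ‖ = 1 := by
  rw [ze, fourier_one]; exact Circle.norm_coe _

lemma continuous_ze : Continuous ze := (fourier 1).continuous

lemma ze_ne (θ : Ci) : ze θ ≠ 0 := by
  intro h
  have := norm_ze θ
  rw [h, norm_zero] at this
  exact zero_ne_one this

lemma fourier_eq (n : ℤ) (θ : Ci) : (fourier n θ : ℂ) = ze θ ^ n := by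
  rw [ze, fourier_one, fourier_apply, AddCircle.toCircle_zsmul, Circle.coe_zpow]

lemma conj_ze (θ : Ci) : (starRingEnd ℂ) (ze θ) = (ze θ)⁻¹ :=
  (Complex.inv_eq_conj (norm_ze θ)).symm

lemma int_zpow (n : ℤ) : ∫ θ, ze θ ^ n ∂mu = if n = 0 then 1 else 0 := by
  simp_rw [← fourier_eq]
  split_ifs with h
  · subst h
    simp
  · exact integral_eq_zero_of_add_right_eq_neg (μ := AddCircle.haarAddCircle)
      (fourier_add_half_inv_index h one_pos)

/-- NV-CIRC -/
theorem circ : S_Circ := by
  refine ⟨norm_ze, continuous_ze, fun j k => ?_⟩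
  have h : ∀ θ : Ci, ze θ ^ j * (starRingEnd ℂ) (ze θ) ^ k = ze θ ^ ((j : ℤ) - k) := by
    intro θ
    rw [conj_ze, zpow_sub₀ (ze_ne θ), inv_pow, zpow_natCast, zpow_natCast, div_eq_mul_inv]
  simp_rw [h]
  rw [int_zpow]
  congr 1
  rw [sub_eq_zero, Nat.cast_inj]

instance : IsProbabilityMeasure mu := inferInstance

/-- restriction to a subset of the coordinates -/
def res {P Q : Finset ℕ} (h : Q ⊆ P) (ω : P → Ci) : Q → Ci := fun q => ω ⟨q, h q.2⟩

lemma measurable_res {P Q : Finset ℕ} (h : Q ⊆ P) : Measurable (res h) :=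
  measurable_pi_lambda _ fun _ => measurable_pi_apply _

lemma continuous_res {P Q : Finset ℕ} (h : Q ⊆ P) : Continuous (res h) :=
  continuous_pi fun _ => continuous_apply _

/-- the restriction preserves products of probability measures -/
theorem res_mp {P Q : Finset ℕ} (h : Q ⊆ P) (ν : ℕ → Measure Ci) (hν : ∀ p ∈ P, IsProbabilityMeasure (ν p)) :
    MeasurePreserving (res h) (Measure.pi fun p : P => ν p) (Measure.pi fun q : Q => ν q) := by
  have : ∀ p : P, IsProbabilityMeasure (ν p) := fun p => hν p p.2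
  refine ⟨measurable_res h, ?_⟩
  have hI : iIndepFun (fun (p : P) (ω : P → Ci) => ω p) (Measure.pi fun p : P => ν p) :=
    iIndepFun_pi (X := fun _ x => x) fun _ => aemeasurable_id
  have hinj : Function.Injective fun q : Q => (⟨q, h q.2⟩ : P) := by
    intro a b hab
    exact Subtype.ext (by simpa using congrArg Subtype.val hab)
  have hI' := hI.precomp hinj
  have h2 := hI'.map_fun_eq_pi_map fun i => (measurable_pi_apply _).aemeasurable
  have h3 : ∀ q : Q, (Measure.pi fun p : P => ν p).map (fun ω => ω ⟨q, h q.2⟩) = ν q := fun q =>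
    (measurePreserving_eval (fun p : P => ν p) ⟨q, h q.2⟩).map_eq
  refine h2.trans ?_
  congr 1
  funext q
  exact h3 q

end Pool.Agent.W184.NV
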