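import Mathlib

set_option autoImplicit false

/-!
# Project NV: zeros and boundary growth in the Hardy spaces `ℋ^p` of Dirichlet series, `p < 2`

Definitions and the statements of the tasks.
-/

namespace Pool.Agent.W184.NV

open MeasureTheory Filter Topology ProbabilityTheory

/-- the circle `ℝ/ℤ` -/
abbrev Ci : Type := AddCircle (1 : ℝ)

/-- normalised Haar measure on the circle -/
noncomputable abbrev mu : Measure Ci := AddCircle.haarAddCircle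

/-- the point `e^(2πiθ)` of the unit circle -/
noncomputable def ze (θ : Ci) : ℂ := (fourier 1 θ : ℂ)

/-- the product measure on `P → Ci` -/
noncomputable abbrev mup (P : Finset ℕ) : Measure (P → Ci) := Measure.pi fun _ => mu

/-- the random Euler product over the elements of `P` -/
noncomputable def EF (P : Finset ℕ) (ω : P → Ci) (s : ℂ) : ℂ :=
  ∏ p : P, (1 + ze (ω p) * ((p : ℕ) : ℂ) ^ (-s))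

/-- normalising factor -/
noncomputable def ZZ (P : Finset ℕ) : ℝ := ∏ p ∈ P, (1 + 1 / (p : ℝ))

/-- the mass of the chaos -/
noncomputable def MM (P : Finset ℕ) (ω : P → Ci) : ℝ :=
  (ZZ P)⁻¹ * ∫ u : ℝ, ‖EF P ω (1 / 2 + u * Complex.I)‖ ^ 2 * Real.exp (-u ^ 2)

open Classical in
/-- the primes `p ≤ e^n` -/
noncomputable def Sm (n : ℕ) : Finset ℕ := (Finset.Icc 1 ⌊Real.exp n⌋₊).filter Nat.Prime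

open Classical in
/-- the primes `p` with `e^a < p ≤ e^b` -/
noncomputable def Pm (a b : ℕ) : Finset ℕ :=
  (Finset.Icc 1 ⌊Real.exp b⌋₊).filter fun p => p.Prime ∧ Real.exp a < p

/-- the rotated variable -/
noncomputable def zt (P : Finset ℕ) (ω : P → Ci) (t : ℝ) (p : P) : ℂ :=
  ze (ω p) * ((p : ℕ) : ℂ) ^ (-((t : ℂ) * Complex.I))

/-- the local average of the main terms of `log |1 + z p^(-1/2)|^2` -/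
noncomputable def LL (η : ℝ) (p : ℕ) (z : ℂ) : ℝ :=
  2 * (p : ℝ) ^ (-(1 / 2) : ℝ) * Real.sinc (η * Real.log p) * z.re -
    1 / (p : ℝ) * Real.sinc (2 * η * Real.log p) * (z ^ 2).re

/-- the tilted measure on the circle -/
noncomputable def nu (p : ℕ) (t : ℝ) : Measure Ci :=
  mu.withDensity fun θ => ENNReal.ofReal
    (‖1 + ze θ * (p : ℂ) ^ (-(1 / 2 + t * Complex.I))‖ ^ 2 / (1 + 1 / (p : ℝ)))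

/-- the product of the tilted measures -/
noncomputable def QQ (P : Finset ℕ) (t : ℝ) : Measure (P → Ci) := Measure.pi fun p => nu p t

/-- value of the Dirichlet polynomial with coefficients `g` -/
noncomputable def DV (g : ℕ →₀ ℂ) (s : ℂ) : ℂ := g.sum fun n a => a * (n : ℂ) ^ (-s)

/-! ### Statements of the tasks -/

/-- the circle -/
def S_Circ : Prop :=
  (∀ θ : Ci, ‖ze θ‖ = 1) ∧ Continuous ze ∧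
  ∀ j k : ℕ, ∫ θ, ze θ ^ j * (starRingEnd ℂ) (ze θ) ^ k ∂mu = if j = k then 1 else 0

/-- CH1 -/
def S_Log : Prop := ∀ w : ℂ, ‖w‖ ≤ 3 / 4 →
  Real.exp (2 * w.re - (w ^ 2).re - 3 * ‖w‖ ^ 3) ≤ ‖1 + w‖ ^ 2

/-- CH2 -/
def S_Local : Prop := ∀ (P : Finset ℕ), (∀ p ∈ P, p.Prime) → ∀ η R t : ℝ, 0 < η → η ≤ 1 →
  (∀ p ∈ P, η * Real.log p ≤ 1) → |t| ≤ R → ∀ ω : P → Ci,
  (ZZ P)⁻¹ * (2 * η * Real.exp (-(R + 1) ^ 2)) *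
    Real.exp (∑ p : P, (LL η p (zt P ω t p) - 3 * ((p : ℕ) : ℝ) ^ (-(3 / 2) : ℝ))) ≤ MM P ω

/-- CH3: anticoncentration -/
def S_Anti : Prop := ∀ (Ω : Type) (_ : MeasurableSpace Ω) (Q : Measure Ω), IsProbabilityMeasure Q →
  ∀ (ι : Type) (X : ι → Ω → ℝ), iIndepFun X Q → (∀ i, Measurable (X i)) →
  (∀ i, ∃ B : ℝ, ∀ ω, |X i ω| ≤ B) → (∀ i, ∫ ω, X i ω ∂Q = 0) → ∀ s : Finset ι,
  0 < ∑ i ∈ s, ∫ ω, X i ω ^ 2 ∂Q →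
  ∑ i ∈ s, ∫ ω, X i ω ^ 4 ∂Q ≤ 1 / 4 * (∑ i ∈ s, ∫ ω, X i ω ^ 2 ∂Q) ^ 2 →
  1 / 40 ≤ Q.real {ω | 1 / 8 * √(∑ i ∈ s, ∫ ω, X i ω ^ 2 ∂Q) ≤ ∑ i ∈ s, X i ω}

/-- CH4: the tilted measures -/
def S_Tilt : Prop :=
  (∀ (p : ℕ) (t : ℝ), p.Prime → IsProbabilityMeasure (nu p t)) ∧
  ∀ (P : Finset ℕ), (∀ p ∈ P, p.Prime) → ∀ (t : ℝ) (E : Set (P → Ci)), MeasurableSet E →
    ∫ ω in E, (ZZ P)⁻¹ * ‖EF P ω (1 / 2 + t * Complex.I)‖ ^ 2 ∂(mup P) = (QQ P t).real E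

/-- CH5: moments of the tilted variable, `z = ze θ p^(-it)`, `m = 2 sinc(η log p)/(p + 1)` -/
def S_Mom : Prop := ∀ (p : ℕ) (t η : ℝ), p.Prime → 12 ≤ p → 0 < η → η * Real.log p ≤ 1 →
  (∫ θ, LL η p (ze θ * (p : ℂ) ^ (-((t : ℂ) * Complex.I))) ∂(nu p t) =
    2 * Real.sinc (η * Real.log p) / ((p : ℝ) + 1)) ∧
  (1 / (2 * (p : ℝ)) ≤ ∫ θ, (LL η p (ze θ * (p : ℂ) ^ (-((t : ℂ) * Complex.I))) -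
    2 * Real.sinc (η * Real.log p) / ((p : ℝ) + 1)) ^ 2 ∂(nu p t)) ∧
  (∀ θ, |LL η p (ze θ * (p : ℂ) ^ (-((t : ℂ) * Complex.I))) -
    2 * Real.sinc (η * Real.log p) / ((p : ℝ) + 1)| ≤ 5 / √(p : ℝ))

/-- CH6: one block -/
def S_Block : Prop := ∀ (P : Finset ℕ), (∀ p ∈ P, p.Prime ∧ 12 ≤ p) → ∀ η t : ℝ, 0 < η →
  (∀ p ∈ P, η * Real.log p ≤ 1) → 100 ≤ ∑ p ∈ P, 1 / (p : ℝ) →
  1 / 40 ≤ (QQ P t).real {ω | ∑ p ∈ P, 2 * Real.sinc (η * Real.log p) / ((p : ℝ) + 1) +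
    1 / 16 * √(∑ p ∈ P, 1 / (p : ℝ)) ≤ ∑ p : P, LL η p (zt P ω t p)}

/-- CH7: independence of the blocks -/
def S_Ind : Prop := ∀ (P : Finset ℕ), (∀ p ∈ P, p.Prime) → ∀ (t κ : ℝ) (J : ℕ) (B : Fin J → Finset ℕ)
  (hB : ∀ j, B j ⊆ P), (∀ i j, i ≠ j → Disjoint (B i) (B j)) →
  ∀ G : ∀ j, Set (B j → Ci), (∀ j, MeasurableSet (G j)) → 0 ≤ κ → (∀ j, (QQ (B j) t).real (G j) ≤ κ) →
  (QQ P t).real {ω | ∀ j, (fun q : B j => ω ⟨q, hB j q.2⟩) ∈ G j} ≤ κ ^ J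

/-- number theory -/
def S_NT : Prop := ∃ C : ℝ, 1 ≤ C ∧
  (∀ n : ℕ, 1 ≤ n → ZZ (Sm n) ≤ C * n) ∧
  (∀ m n : ℕ, 1 ≤ m → m ≤ n → Real.log n - Real.log m - C ≤ ∑ p ∈ Pm m n, 1 / (p : ℝ)) ∧
  (∀ m n : ℕ, 1 ≤ m → m ≤ n → 2 * Real.log n - 2 * Real.log m - C ≤
    ∑ p ∈ Pm m n, 2 * Real.sinc (1 / n * Real.log p) / ((p : ℝ) + 1)) ∧
  (∀ j : ℕ, 1 ≤ j → ((Pm j (j + 1)).card : ℝ) ≤ C * Real.exp j / j) ∧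
  (∀ᶠ j : ℕ in atTop, Real.exp j / (C * j) ≤ (Pm j (j + 1)).card)

/-- CH: the critical chaos degenerates -/
def S_Chaos : Prop := ∀ ε : ℝ, 0 < ε → ∀ n₀ : ℕ, ∃ n : ℕ, n₀ ≤ n ∧ 1 ≤ n ∧
  ∫ ω, √(MM (Sm n) ω) ∂(mup (Sm n)) ≤ ε

/-- Bohr's correspondence, as an inequality -/
def S_Bohr : Prop := ∀ (Ω : Type) (_ : MeasurableSpace Ω) (μ : Measure Ω), IsProbabilityMeasure μ →
  ∀ (χ : Ω → ℕ →* ℂ) (S : Submonoid ℕ), 0 ∉ S → (∀ n, Measurable fun ω => χ ω n) →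
  (∀ ω, ∀ n ∈ S, ‖χ ω n‖ = 1) →
  (∀ m ∈ S, ∀ n ∈ S, ∫ ω, χ ω m * (starRingEnd ℂ) (χ ω n) ∂μ = if m = n then 1 else 0) →
  ∀ g : ℕ →₀ ℂ, (∀ n ∈ g.support, n ∈ S) → ∀ ε : ℝ, 0 < ε → ∀ᶠ T : ℝ in atTop,
    1 / (2 * T) * ∫ t in (-T)..T, ‖DV g (t * Complex.I)‖ ≤ (∫ ω, ‖g.sum fun n a => a * χ ω n‖ ∂μ) + ε

/-- Plancherel's identity with Gaussian windows -/
def S_Planch : Prop := ∀ (ι : Type) (s : Finset ι) (a : ι → ℂ) (x : ι → ℝ),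
  Integrable (fun v : ℝ => ‖∑ i ∈ s, a i * Real.exp (-(x i - v) ^ 2 / 2)‖ ^ 2) ∧
  ∫ v : ℝ, ‖∑ i ∈ s, a i * Real.exp (-(x i - v) ^ 2 / 2)‖ ^ 2 =
    ∫ u : ℝ, ‖∑ i ∈ s, a i * Complex.exp (-(Complex.I * (u * x i : ℝ)))‖ ^ 2 * Real.exp (-u ^ 2)

/-- the window -/
noncomputable def ww (x : ℝ) : ℝ := Real.exp (-x ^ 2 / 2 - x / 2)

/-- the polynomials: the sum of `n^(-s) ww(j + log d - 2n - θ)` over `n = q d`, `e^j < q ≤ e^(j+1)`,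
`n ≤ j ≤ 2n`, `q` prime, `d` a squarefree number with prime factors `≤ e^n` -/
noncomputable def GG (n : ℕ) (θ : ℝ) : ℕ →₀ ℂ :=
  ∑ j ∈ Finset.Icc n (2 * n), ∑ q ∈ Pm j (j + 1), ∑ D ∈ (Sm n).powerset,
    Finsupp.single (q * ∏ p ∈ D, p) ((ww (j + Real.log (∏ p ∈ D, (p : ℝ)) - 2 * n - θ) : ℝ) : ℂ)

/-- upper bound for the norm -/
def S_Upper : Prop := ∃ C : ℝ, 0 < C ∧ ∀ n : ℕ, 1 ≤ n → ∃ θ : ℝ, 0 ≤ θ ∧ θ ≤ 1 ∧ ∀ ε : ℝ, 0 < ε →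
  ∀ᶠ T : ℝ in atTop, 1 / (2 * T) * ∫ t in (-T)..T, ‖DV (GG n θ) (t * Complex.I)‖ ≤
    C * Real.exp n * ∫ ω, √(MM (Sm n) ω) ∂(mup (Sm n)) + ε

/-- lower bound on the segment -/
def S_Seg : Prop := ∃ t₀ c : ℝ, 0 < t₀ ∧ 0 < c ∧ ∀ᶠ n : ℕ in atTop, ∀ θ t : ℝ, 0 ≤ θ → θ ≤ 1 →
  |t| ≤ t₀ → c * Real.exp n ≤ ‖DV (GG n θ) (1 / 2 + t * Complex.I)‖

/-- upper bound to the right -/
def S_Right : Prop := ∀ σ₁ ε : ℝ, 1 / 2 < σ₁ → 0 < ε → ∀ᶠ n : ℕ in atTop, ∀ θ : ℝ, 0 ≤ θ → θ ≤ 1 →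
  ∀ s : ℂ, σ₁ ≤ s.re → ‖DV (GG n θ) s‖ ≤ ε * Real.exp n

/-- the key statement -/
def S_Key : Prop := ∃ t₀ : ℝ, 0 < t₀ ∧ ∀ K σ₁ : ℝ, 1 / 2 < σ₁ → ∃ g : ℕ →₀ ℂ, g 0 = 0 ∧
  (∀ᶠ T : ℝ in atTop, 1 / (2 * T) * ∫ t in (-T)..T, ‖DV g (t * Complex.I)‖ ≤ 1) ∧
  (∀ t : ℝ, |t| ≤ t₀ → K ≤ ‖DV g (1 / 2 + t * Complex.I)‖) ∧
  (∀ s : ℂ, σ₁ ≤ s.re → ‖DV g s‖ ≤ 1)

/-- the function -/
def S_Hump : Prop := ∃ (t₀ : ℝ) (g : ℕ → (ℕ →₀ ℂ)) (F : ℂ → ℂ) (σ δ : ℕ → ℝ), 0 < t₀ ∧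
  (∀ k, g k 0 = 0) ∧
  (∀ ε : ℝ, 0 < ε → ∃ K : ℕ, ∀ j ≥ K, ∀ k ≥ K, ∀ᶠ T : ℝ in atTop,
    1 / (2 * T) * ∫ t in (-T)..T, ‖DV (g j - g k) (t * Complex.I)‖ < ε) ∧
  (∀ s : ℂ, 1 / 2 < s.re → Tendsto (fun k => DV (g k) s) atTop (𝓝 (F s))) ∧
  DifferentiableOn ℂ F {s | 1 / 2 < s.re} ∧
  (∀ k, 1 / 2 < σ k ∧ 0 < δ k) ∧ Tendsto σ atTop (𝓝 (1 / 2)) ∧
  (∀ (k : ℕ) (s : ℂ), σ k ≤ s.re → s.re ≤ σ k + δ k → |s.im| ≤ t₀ → Real.exp k ≤ ‖F s‖)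

/-- complex analysis: zeros of `F - c` -/
def S_Jen : Prop := ∀ (t₀ : ℝ) (F : ℂ → ℂ) (σ δ : ℕ → ℝ), 0 < t₀ →
  DifferentiableOn ℂ F {s | 1 / 2 < s.re} →
  (∀ k, 1 / 2 < σ k ∧ 0 < δ k) → Tendsto σ atTop (𝓝 (1 / 2)) →
  (∀ (k : ℕ) (s : ℂ), σ k ≤ s.re → s.re ≤ σ k + δ k → |s.im| ≤ t₀ → Real.exp k ≤ ‖F s‖) →
  ∃ c : ℂ, (∃ s : ℂ, 1 / 2 < s.re ∧ F s ≠ c) ∧
    ∀ C : ℝ, ∃ S : Finset ℂ, (∀ ρ ∈ S, 1 / 2 < ρ.re ∧ F ρ = c) ∧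
      C < ∑ ρ ∈ S, (analyticOrderNatAt (fun s => F s - c) ρ : ℝ) * (ρ.re - 1 / 2) / (1 + ‖ρ‖ ^ 2)

end Pool.Agent.W184.NV
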