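import Pool.Agent.W184.NV.Defs

set_option autoImplicit false

/-! Both conclusions from the function `F`. -/

namespace Pool.Agent.W184.NV

open MeasureTheory Filter Topology

lemma DV_eq (g : ℕ →₀ ℂ) (s : ℂ) : DV g s = ∑ n ∈ g.support, g n * (n : ℂ) ^ (-s) := rfl

lemma DV_sub (g h : ℕ →₀ ℂ) (s : ℂ) : DV (g - h) s = DV g s - DV h s := by
  unfold DV
  exact Finsupp.sum_sub_index fun n a b => by ring

lemma DV_single (n : ℕ) (a s : ℂ) : DV (Finsupp.single n a) s = a * (n : ℂ) ^ (-s) := by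
  unfold DV
  rw [Finsupp.sum_single_index]; simp

/-- the shift of the index by one -/
noncomputable def sh (h : ℕ →₀ ℂ) : ℕ →₀ ℂ := h.comapDomain (· + 1) (add_left_injective 1).injOn

lemma sh_apply (h : ℕ →₀ ℂ) (n : ℕ) : sh h n = h (n + 1) := rfl

lemma sh_sub (g h : ℕ →₀ ℂ) : sh (g - h) = sh g - sh h := by
  ext n
  simp [sh_apply]

lemma sum_sh (h : ℕ →₀ ℂ) (h0 : h 0 = 0) (s : ℂ) :
    ∑ n ∈ (sh h).support, sh h n * ((n : ℂ) + 1) ^ (-s) = DV h s := by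
  rw [DV_eq]
  refine Finset.sum_nbij' (fun n => n + 1) (fun n => n - 1) ?_ ?_ ?_ ?_ ?_
  · intro n hn
    rw [Finsupp.mem_support_iff] at hn ⊢
    exact hn
  · intro n hn
    rw [Finsupp.mem_support_iff] at hn ⊢
    rw [sh_apply]
    rcases Nat.eq_zero_or_pos n with h1 | h1
    · subst h1; exact absurd h0 hn
    · rwa [Nat.sub_add_cancel h1]
  · intro n _; simp
  · intro n hn
    rw [Finsupp.mem_support_iff] at hn
    rcases Nat.eq_zero_or_pos n with h1 | h1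
    · subst h1; exact absurd h0 hn
    · exact Nat.sub_add_cancel h1
  · intro n _
    rw [sh_apply]; push_cast; rfl

/-- the first conclusion -/
theorem fin1 (H : S_Hump) :
    ¬ (∀ p : ℝ, 0 < p → p < 2 → ∀ f : ℂ → ℂ,
      (∃ P : ℕ → (ℕ →₀ ℂ),
        (∀ ε : ℝ, 0 < ε → ∃ N : ℕ, ∀ k ≥ N, ∀ m ≥ N,
          Filter.limsup
            (fun T : ℝ => (1 / (2 * T)) *
              ∫ t in (-T)..T,
                ‖∑ n ∈ (P k - P m).support,
                    (P k - P m) n * ((n : ℂ) + 1) ^ (-((t : ℂ) * Complex.I))‖ ^ p)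
            Filter.atTop < ε) ∧
        (∀ s : ℂ, 1 / 2 < s.re →
          Filter.Tendsto
            (fun k : ℕ => ∑ n ∈ (P k).support, (P k) n * ((n : ℂ) + 1) ^ (-s))
            Filter.atTop (nhds (f s)))) →
      ∀ a b : ℝ, ∃ C : ℝ, ∀ σ : ℝ, 1 / 2 < σ → σ < 1 →
        ∫ t in a..b, Real.log (max 1 ‖f ((σ : ℂ) + (t : ℂ) * Complex.I)‖) ≤ C) := by
  obtain ⟨t₀, g, F, σ, δ, ht₀, hg0, hC, hlim, hF, hσ, hσl, hbig⟩ := H
  intro hcon
  obtain ⟨C, hCb⟩ := hcon 1 one_pos (by norm_num) F ⟨fun k => sh (g k), fun ε hε => by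
    obtain ⟨N, hN⟩ := hC (ε / 2) (half_pos hε)
    refine ⟨N, fun k hk m hm => ?_⟩
    have h1 := hN k hk m hm
    have e : ∀ T : ℝ, (1 / (2 * T)) * ∫ t in (-T)..T, ‖∑ n ∈ (sh (g k) - sh (g m)).support,
        (sh (g k) - sh (g m)) n * ((n : ℂ) + 1) ^ (-((t : ℂ) * Complex.I))‖ ^ (1:ℝ) =
        1 / (2 * T) * ∫ t in (-T)..T, ‖DV (g k - g m) (t * Complex.I)‖ := by
      intro T
      congr 1
      refine intervalIntegral.integral_congr fun t _ => ?_
      simp only [Real.rpow_one]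
      rw [← sh_sub, sum_sh _ (by simp [hg0])]
    simp_rw [e]
    have h2 : limsup (fun T : ℝ => 1 / (2 * T) * ∫ t in (-T)..T, ‖DV (g k - g m) (t * Complex.I)‖) atTop ≤
        ε / 2 := by
      refine limsup_le_of_le ?_ (h1.mono fun T hT => hT.le)
      refine ⟨0, fun a ha => ?_⟩
      rw [eventually_map] at ha
      obtain ⟨T, hT1, hT2⟩ := (ha.and (eventually_gt_atTop 0)).exists
      refine le_trans ?_ hT1
      refine mul_nonneg (by positivity) (intervalIntegral.integral_nonneg (by linarith) fun t _ => norm_nonneg _)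
    linarith, fun s hs => by
    refine (hlim s hs).congr fun k => ?_
    exact (sum_sh _ (hg0 k) s).symm⟩ (-t₀) t₀
  -- contradiction
  have h1 : ∀ᶠ k : ℕ in atTop, σ k < 1 := hσl.eventually (gt_mem_nhds (by norm_num))
  have h2 : ∀ᶠ k : ℕ in atTop, C / (2 * t₀) < k := by
    exact tendsto_natCast_atTop_atTop.eventually_gt_atTop _
  obtain ⟨k, hk1, hk2⟩ := (h1.and h2).exists
  have h3 := hCb (σ k) (hσ k).1 hk1
  have hcont : Continuous fun t : ℝ => Real.log (max 1 ‖F ((σ k : ℂ) + (t : ℂ) * Complex.I)‖) := by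
    have hFc : ContinuousOn F {s | 1 / 2 < s.re} := hF.continuousOn
    have h4 : Continuous fun t : ℝ => F ((σ k : ℂ) + (t : ℂ) * Complex.I) := by
      refine hFc.comp_continuous (by fun_prop) fun t => ?_
      simpa using (hσ k).1
    refine Continuous.log (continuous_const.max h4.norm) fun t => ?_
    have : (1:ℝ) ≤ max 1 ‖F ((σ k : ℂ) + (t : ℂ) * Complex.I)‖ := le_max_left _ _
    linarith
  have h5 : ∫ _t in (-t₀)..t₀, (k : ℝ) ≤
      ∫ t in (-t₀)..t₀, Real.log (max 1 ‖F ((σ k : ℂ) + (t : ℂ) * Complex.I)‖) := by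
    refine intervalIntegral.integral_mono_on (by linarith) (continuous_const.intervalIntegrable _ _)
      (hcont.intervalIntegrable _ _) fun t ht => ?_
    have h6 := hbig k ((σ k : ℂ) + (t : ℂ) * Complex.I) (by simp) (by simp [(hσ k).2.le]) (by
      simp only [Complex.add_im, Complex.ofReal_im, Complex.mul_im, Complex.ofReal_re, Complex.I_im, mul_one,
        Complex.I_re, mul_zero, add_zero, zero_add]
      rw [abs_le]; exact ⟨ht.1, ht.2⟩)
    rw [← Real.log_exp (k:ℝ)]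
    exact Real.log_le_log (Real.exp_pos _) (h6.trans (le_max_right _ _))
  rw [intervalIntegral.integral_const, smul_eq_mul] at h5
  rw [div_lt_iff₀ (by positivity)] at hk2
  linarith

lemma sum_Icc (h : ℕ →₀ ℂ) (h0 : h 0 = 0) (s : ℂ) {N : ℕ} (hN : ∀ n ∈ h.support, n ≤ N) :
    ∑ n ∈ Finset.Icc 1 N, h n * (n : ℂ) ^ (-s) = DV h s := by
  rw [DV_eq]
  symm
  refine Finset.sum_subset (fun n hn => ?_) fun n _ hn => ?_
  · rw [Finset.mem_Icc]
    refine ⟨Nat.pos_of_ne_zero fun h1 => ?_, hN n hn⟩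
    rw [Finsupp.mem_support_iff] at hn
    subst h1
    exact hn h0
  · rw [Finsupp.notMem_support_iff] at hn
    rw [hn, zero_mul]

/-- the second conclusion -/
theorem fin2 (H : S_Hump) (J : S_Jen) :
    ¬ (∀ p : ℝ, 0 < p → p < 2 →
    ∀ (c : ℕ → ℕ → ℂ) (N : ℕ → ℕ) (f : ℂ → ℂ),
      (∀ ε : ℝ, 0 < ε → ∃ K : ℕ, ∀ j ≥ K, ∀ k ≥ K, ∃ T₀ : ℝ, 0 < T₀ ∧ ∀ T ≥ T₀,
        (1 / (2 * T)) * ∫ t in (-T)..T,
          ‖(∑ n ∈ Finset.Icc 1 (N j), c j n * (n : ℂ) ^ (-((t : ℂ) * Complex.I)))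
            - (∑ n ∈ Finset.Icc 1 (N k), c k n * (n : ℂ) ^ (-((t : ℂ) * Complex.I)))‖ ^ p
          < ε) →
      (∀ s : ℂ, 1 / 2 < s.re →
        Filter.Tendsto (fun k : ℕ => ∑ n ∈ Finset.Icc 1 (N k), c k n * (n : ℂ) ^ (-s))
          Filter.atTop (nhds (f s))) →
      (∃ s : ℂ, 1 / 2 < s.re ∧ f s ≠ 0) →
      ∃ C : ℝ, ∀ S : Finset ℂ, (∀ ρ ∈ S, 1 / 2 < ρ.re ∧ f ρ = 0) →
        ∑ ρ ∈ S, (analyticOrderNatAt f ρ : ℝ) * (ρ.re - 1 / 2) / (1 + ‖ρ‖ ^ 2) ≤ C) := by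
  obtain ⟨t₀, g, F, σ, δ, ht₀, hg0, hC, hlim, hF, hσ, hσl, hbig⟩ := H
  obtain ⟨w, ⟨s₀, hs₀, hFs₀⟩, hw⟩ := J t₀ F σ δ ht₀ hF hσ hσl hbig
  intro hcon
  set G : ℕ → (ℕ →₀ ℂ) := fun k => g k - Finsupp.single 1 w with hG
  have hG0 : ∀ k, G k 0 = 0 := by
    intro k
    rw [hG]
    simp [hg0]
  have hDV : ∀ k s, DV (G k) s = DV (g k) s - w := by
    intro k s
    rw [hG]
    simp only
    rw [DV_sub, DV_single]
    simp
  have hsum : ∀ k s, ∑ n ∈ Finset.Icc 1 ((G k).support.sup id), G k n * (n : ℂ) ^ (-s) = DV (g k) s - w := by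
    intro k s
    rw [sum_Icc (G k) (hG0 k) s fun n hn => Finset.le_sup (f := id) hn, hDV]
  obtain ⟨C, hCb⟩ := hcon 1 one_pos (by norm_num) (fun k n => G k n) (fun k => (G k).support.sup id)
    (fun s => F s - w) (fun ε hε => by
      obtain ⟨K, hK⟩ := hC ε hε
      refine ⟨K, fun j hj k hk => ?_⟩
      obtain ⟨T₁, hT₁⟩ := eventually_atTop.mp (hK j hj k hk)
      refine ⟨max T₁ 1, by positivity, fun T hT => ?_⟩
      have h1 := hT₁ T ((le_max_left _ _).trans hT)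
      convert h1 using 3
      funext t
      simp only [hsum, Real.rpow_one]
      rw [DV_sub]
      congr 1
      ring) (fun s hs => by
      simp_rw [hsum]
      exact (hlim s hs).sub_const w) ⟨s₀, hs₀, sub_ne_zero.mpr hFs₀⟩
  obtain ⟨S, hS1, hS2⟩ := hw C
  have h3 := hCb S fun ρ hρ => ⟨(hS1 ρ hρ).1, sub_eq_zero.mpr (hS1 ρ hρ).2⟩
  linarith

end Pool.Agent.W184.NV
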