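import Pool.Agent.W184.NV.Fin

set_option autoImplicit false

/-! The key statement. -/

namespace Pool.Agent.W184.NV

open MeasureTheory Filter Topology

lemma DV_smul (a : ℂ) (g : ℕ →₀ ℂ) (s : ℂ) : DV (a • g) s = a * DV g s := by
  unfold DV
  rw [Finsupp.sum_smul_index (by simp), Finsupp.mul_sum]
  refine Finsupp.sum_congr fun n _ => by ring

lemma DV_zero (s : ℂ) : DV 0 s = 0 := by unfold DV; simp

lemma DV_add (g h : ℕ →₀ ℂ) (s : ℂ) : DV (g + h) s = DV g s + DV h s := by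
  unfold DV
  exact Finsupp.sum_add_index' (by simp) fun n a b => by ring

lemma DV_sum {ι : Type*} (S : Finset ι) (g : ι → (ℕ →₀ ℂ)) (s : ℂ) :
    DV (∑ i ∈ S, g i) s = ∑ i ∈ S, DV (g i) s := by
  classical
  induction S using Finset.induction_on with
  | empty => simp [DV_zero]
  | insert i S hi ih => rw [Finset.sum_insert hi, Finset.sum_insert hi, DV_add, ih]

lemma GG_zero (n : ℕ) (θ : ℝ) : GG n θ 0 = 0 := by
  unfold GG
  simp only [Finsupp.finsetSum_apply]
  refine Finset.sum_eq_zero fun j _ => Finset.sum_eq_zero fun q hq => Finset.sum_eq_zero fun D hD => ?_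
  rw [Finsupp.single_apply, if_neg]
  have h1 : q ≠ 0 := by
    unfold Pm at hq
    rw [Finset.mem_filter] at hq
    exact hq.2.1.ne_zero
  refine mul_ne_zero h1 (Finset.prod_ne_zero_iff.mpr fun p hp => ?_)
  have h2 := Finset.mem_powerset.mp hD hp
  unfold Sm at h2
  rw [Finset.mem_filter] at h2
  exact h2.2.ne_zero

theorem key (H1 : S_Chaos) (H2 : S_Upper) (H3 : S_Seg) (H4 : S_Right) : S_Key := by
  obtain ⟨C, hC, hU⟩ := H2
  obtain ⟨t₀, c, ht₀, hc, hS⟩ := H3
  refine ⟨t₀, ht₀, fun K σ₁ hσ₁ => ?_⟩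
  set K' : ℝ := max K 1 with hK'
  have hK1 : 1 ≤ K' := le_max_right _ _
  have hK0 : 0 < K' := by linarith
  set κ : ℝ := c / K' with hκ
  have hκ0 : 0 < κ := by positivity
  obtain ⟨n₁, hn₁⟩ := eventually_atTop.mp (hS.and (H4 σ₁ κ hσ₁ hκ0))
  obtain ⟨n, hn, hn1, hI⟩ := H1 (κ / (2 * C)) (by positivity) n₁
  obtain ⟨θ, hθ0, hθ1, hU⟩ := hU n hn1
  obtain ⟨h1, h2⟩ := hn₁ n hn
  have he := Real.exp_pos (n:ℝ)
  set a : ℝ := (Real.exp n * κ)⁻¹ with ha
  have ha0 : 0 < a := by positivity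
  have hna : ‖(a : ℂ)‖ = a := by rw [Complex.norm_real, Real.norm_of_nonneg ha0.le]
  refine ⟨(a : ℂ) • GG n θ, by rw [Finsupp.smul_apply, GG_zero, smul_zero], ?_, ?_, ?_⟩
  · filter_upwards [hU (κ * Real.exp n / 2) (by positivity)] with T hT
    have e : (∫ t in (-T)..T, ‖DV ((a : ℂ) • GG n θ) (t * Complex.I)‖) =
        a * ∫ t in (-T)..T, ‖DV (GG n θ) (t * Complex.I)‖ := by
      rw [← intervalIntegral.integral_const_mul]
      refine intervalIntegral.integral_congr fun t _ => ?_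
      rw [DV_smul, norm_mul, hna]
    rw [e, mul_left_comm]
    have h3 : C * Real.exp n * ∫ ω, √(MM (Sm n) ω) ∂(mup (Sm n)) ≤ κ * Real.exp n / 2 := by
      calc _ ≤ C * Real.exp n * (κ / (2 * C)) := mul_le_mul_of_nonneg_left hI (by positivity)
        _ = _ := by field_simp
    have h4 : a * (1 / (2 * T) * ∫ t in (-T)..T, ‖DV (GG n θ) (t * Complex.I)‖) ≤ a * (κ * Real.exp n) :=
      mul_le_mul_of_nonneg_left (by linarith) ha0.le
    refine h4.trans (le_of_eq ?_)
    rw [ha]; field_simp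
  · intro t ht
    rw [DV_smul, norm_mul, hna]
    have h3 := mul_le_mul_of_nonneg_left (h1 θ t hθ0 hθ1 ht) ha0.le
    refine le_trans ?_ h3
    have : a * (c * Real.exp n) = K' := by rw [ha, hκ]; field_simp
    rw [this]
    exact le_max_left _ _
  · intro s hs
    rw [DV_smul, norm_mul, hna]
    have h3 := mul_le_mul_of_nonneg_left (h2 θ hθ0 hθ1 s hs) ha0.le
    refine h3.trans (le_of_eq ?_)
    rw [ha]; field_simp

end Pool.Agent.W184.NV
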